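import Pool.Agent.R280.SepRed

/-!
A separable Banach lattice is semiprojective if and only if it is `1⁺`-projective.
-/

set_option autoImplicit false

open TopologicalSpace Pool.Agent.R280.BLat

universe u v

namespace Pool.Agent.Results.MP_d0fcce_an.SemiprojectiveProjective

/-- A separable Banach lattice is semiprojective if and only if it is `1⁺`-projective. -/
theorem result (A : Type u) [NormedAddCommGroup A] [NormedSpace ℝ A] [Lattice A]
    [BanachLattice A] [SeparableSpace A] :
    IsSemiprojective.{u, v} A ↔ IsProjective.{u, v} A := by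
  refine ⟨fun h => h.isProjective, fun h => isSemiprojective_of_liftable ?_⟩
  intro B C _ _ _ _ _ _ _ _ _ Q hQ φ hφ hφ1 ε hε
  obtain ⟨ψ, hψ, hψQ, hψn⟩ := h B C Q hQ φ hφ ε hε
  exact ⟨ψ, hψ, hψQ, hψn.trans (mul_le_of_le_one_right (by linarith) hφ1)⟩

end Pool.Agent.Results.MP_d0fcce_an.SemiprojectiveProjective
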